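import Pool.Agent.Lib.MP_defcf3_al.BRP.Base

/-! D7 (QUASIA): a nonzero class (a, cyclotomic character) gives a quasicyclic subgroup. -/

namespace BRP.H72

universe u

open BR7 BR7.H72

variable {ℓ : ℕ} [Fact ℓ.Prime] [Fact (Odd ℓ)]


section generic

variable {G A : Type u} [Group G] [TopologicalSpace G] [CommGroup A] [MulDistribMulAction G A]

theorem gcup_punit (n : ℕ) (a : A) (χ : G → ZMod n) :
    gcup (X := PUnit.{u + 1}) n (fun _ => a) (fun g _ => χ g) = cup n a χ := by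
  funext g h
  simp [gcup, cup]

theorem openStab_punit : OpenStab G PUnit.{u + 1} := by
  intro x
  have h : {g : G | g • x = x} = Set.univ := by
    ext g
    simp
  rw [h]
  exact isOpen_univ

end generic

theorem quasia (hGMOD : GcupModStatement.{u}) (hGZ : GcupZStatement.{u})
    (hDISC : DiscStatement.{u}) : QuasiAStatement.{u} ℓ := by
  classical
  intro F Ω _ _ _ _ X hX hXc hXk a n ha hn
  have hdisc : Disc (Ω ≃ₐ[F] Ω) Ωˣ := hDISC F Ω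
  haveI : ∀ m : ℕ, NeZero (ℓ ^ m) := fun m => ⟨pow_ne_zero _ (Fact.out : Nat.Prime ℓ).ne_zero⟩
  -- the basic relation
  have hstep : ∀ j : ℕ, cup (ℓ ^ (j + 1)) a (X (j + 1)) ^ ℓ * (cup (ℓ ^ j) a (X j))⁻¹ ∈
      B2 (Ω ≃ₐ[F] Ω) Ωˣ := by
    intro j
    have h1 := hGMOD (Ω ≃ₐ[F] Ω) Ωˣ PUnit.{u + 1} hdisc openStab_punit (ℓ ^ j) ℓ
      (ℓ ^ (j + 1)) (pow_dvd_pow ℓ (Nat.le_succ j)) (pow_succ ℓ j) (fun _ => a)
      (fun g _ => X (j + 1) g) (fun g _ => (ha g).symm) (fun g h _ => hX _ g h)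
      (fun _ => hXc _)
    simp only [hXk j] at h1
    rw [gcup_punit, gcup_punit] at h1
    exact h1
  have hz : ∀ j : ℕ, cup (ℓ ^ j) a (X j) ∈ Z2 (Ω ≃ₐ[F] Ω) Ωˣ := by
    intro j
    rw [← gcup_punit]
    exact hGZ (Ω ≃ₐ[F] Ω) Ωˣ PUnit.{u + 1} hdisc openStab_punit _ (fun _ => a)
      (fun g _ => X j g) (fun g _ => (ha g).symm) (fun g h _ => hX _ g h)
      (fun _ => hXc _)
  have hex : ∃ m : ℕ, cup (ℓ ^ m) a (X m) ∉ B2 (Ω ≃ₐ[F] Ω) Ωˣ := ⟨n, hn⟩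
  obtain ⟨m, hm, hmin⟩ : ∃ m : ℕ, cup (ℓ ^ m) a (X m) ∉ B2 (Ω ≃ₐ[F] Ω) Ωˣ ∧
      ∀ k < m, cup (ℓ ^ k) a (X k) ∈ B2 (Ω ≃ₐ[F] Ω) Ωˣ :=
    ⟨Nat.find hex, Nat.find_spec hex, fun k hk => not_not.1 (Nat.find_min hex hk)⟩
  have hm0 : m ≠ 0 := by
    rintro rfl
    apply hm
    have h1 : cup (ℓ ^ 0) a (X 0) = 1 := by
      funext g h
      have h2 : ∀ g, X 0 g = 0 := fun g => by
        haveI : Subsingleton (ZMod (ℓ ^ 0)) := by
          rw [pow_zero]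
          infer_instance
        exact Subsingleton.elim _ _
      simp only [cup, carry, h2, ZMod.val_zero, add_zero, Nat.zero_div, pow_zero]
      rfl
    rw [h1]
    exact one_mem _
  obtain ⟨l, rfl⟩ := Nat.exists_eq_succ_of_ne_zero hm0
  refine ⟨fun j => cup (ℓ ^ (l + 1 + j)) a (X (l + 1 + j)), fun j => hz _, hm, ?_, ?_⟩
  · have h1 := hstep l
    have h2 := mul_mem h1 (hmin l (Nat.lt_succ_self l))
    rw [inv_mul_cancel_right] at h2
    exact h2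
  · intro j
    have h1 := inv_mem (hstep (l + 1 + j))
    rw [mul_inv_rev, inv_inv] at h1
    exact h1

end BRP.H72
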