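import Pool.Agent.Lib.MP_defcf3_al.BRP.Base

/-! D8 (QUASIB): a nontrivial ℓ-primary ℓ-divisible subgroup of H2 contains a quasicyclic group. -/

namespace BRP.H72

universe u

open BR7 BR7.H72

variable {ℓ : ℕ} [Fact ℓ.Prime] [Fact (Odd ℓ)]


theorem quasi_gen {M : Type*} [CommGroup M] (Z B : Subgroup M) (D : Subgroup (Z ⧸ B.subgroupOf Z))
    (hD : D ≠ ⊥) (htors : ∀ x ∈ D, ∃ j : ℕ, x ^ (ℓ ^ j) = 1) (hdiv : ∀ x ∈ D, ∃ y ∈ D, y ^ ℓ = x) :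
    ∃ y : ℕ → M, (∀ n, y n ∈ Z) ∧ y 0 ∉ B ∧ y 0 ^ ℓ ∈ B ∧ ∀ n, y n * (y (n + 1) ^ ℓ)⁻¹ ∈ B := by
  classical
  obtain ⟨x, hx1⟩ := (Subgroup.ne_bot_iff_exists_ne_one).1 hD
  have hx1' : (x : Z ⧸ B.subgroupOf Z) ≠ 1 := fun h => hx1 (Subtype.ext h)
  have hex := htors x x.2
  obtain ⟨m, hm, hmin⟩ : ∃ m : ℕ, (x : Z ⧸ B.subgroupOf Z) ^ (ℓ ^ m) = 1 ∧
      ∀ k < m, (x : Z ⧸ B.subgroupOf Z) ^ (ℓ ^ k) ≠ 1 :=
    ⟨Nat.find hex, Nat.find_spec hex, fun k hk => Nat.find_min hex hk⟩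
  have hm0 : m ≠ 0 := by
    rintro rfl
    rw [pow_zero, pow_one] at hm
    exact hx1' hm
  obtain ⟨l, rfl⟩ := Nat.exists_eq_succ_of_ne_zero hm0
  obtain ⟨z, hzD, hz1, hz7⟩ : ∃ z ∈ D, z ≠ 1 ∧ z ^ ℓ = 1 := by
    refine ⟨(x : Z ⧸ B.subgroupOf Z) ^ (ℓ ^ l), pow_mem x.2 _, hmin l (Nat.lt_succ_self l), ?_⟩
    rw [← pow_mul, ← pow_succ]
    exact hm
  choose! root hroot hroot7 using hdiv
  obtain ⟨s, hs⟩ : ∃ s : ℕ → Z ⧸ B.subgroupOf Z, s = fun n => root^[n] z := ⟨_, rfl⟩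
  have hs0 : s 0 = z := by rw [hs]; rfl
  have hss : ∀ n, s (n + 1) = root (s n) := by
    intro n
    rw [hs]
    exact Function.iterate_succ_apply' root n z
  have hsD : ∀ n, s n ∈ D := by
    intro n
    induction n with
    | zero => rw [hs0]; exact hzD
    | succ n ih => rw [hss]; exact hroot _ ih
  have hs7 : ∀ n, s (n + 1) ^ ℓ = s n := by
    intro n
    rw [hss]
    exact hroot7 _ (hsD n)
  have hmk : ∀ f : Z, (QuotientGroup.mk f : Z ⧸ B.subgroupOf Z) = 1 ↔ (f : M) ∈ B := by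
    intro f
    rw [QuotientGroup.eq_one_iff, Subgroup.mem_subgroupOf]
  have hrep : ∀ n, ∃ f : Z, (QuotientGroup.mk f : Z ⧸ B.subgroupOf Z) = s n :=
    fun n => QuotientGroup.mk_surjective (s n)
  choose f hf using hrep
  refine ⟨fun n => (f n : M), fun n => (f n).2, ?_, ?_, ?_⟩
  · intro h
    have h1 := (hmk (f 0)).2 h
    rw [hf, hs0] at h1
    exact hz1 h1
  · have h1 : (QuotientGroup.mk (f 0 ^ ℓ) : Z ⧸ B.subgroupOf Z) = 1 := by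
      rw [QuotientGroup.mk_pow, hf, hs0, hz7]
    exact (hmk _).1 h1
  · intro n
    have h1 : (QuotientGroup.mk (f n * (f (n + 1) ^ ℓ)⁻¹) : Z ⧸ B.subgroupOf Z) = 1 := by
      rw [QuotientGroup.mk_mul, QuotientGroup.mk_inv, QuotientGroup.mk_pow, hf, hf, hs7,
        mul_inv_cancel]
    exact (hmk _).1 h1

theorem quasib : QuasiBStatement.{u} ℓ := by
  intro F Ω _ _ _ D hD htors hdiv
  exact quasi_gen _ _ D hD htors hdiv

end BRP.H72
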